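import Mathlib
import Pool.Agent.W282.DZ.Stm

/-!
Project DZ: the Bezout inequality by averaging.
-/

set_option autoImplicit false

open MvPolynomial Filter
open scoped ENNReal NNReal

namespace Pool.Agent.W125.DZ

open Pool.Agent.W282.DZ

/-- superadditivity of the lower limit -/
theorem add_liminf_le (u v : ℕ → ℝ≥0∞) :
    liminf u atTop + liminf v atTop ≤ liminf (fun K => u K + v K) atTop := by
  rw [liminf_eq_iSup_iInf_of_nat, liminf_eq_iSup_iInf_of_nat, liminf_eq_iSup_iInf_of_nat]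
  have hm : ∀ w : ℕ → ℝ≥0∞, Monotone fun n => ⨅ i, ⨅ (_ : i ≥ n), w i := by
    intro w a b hab
    exact le_iInf₂ fun i hi => iInf₂_le i (hab.trans hi)
  rw [ENNReal.iSup_add_iSup_of_monotone (hm u) (hm v)]
  refine iSup_mono fun n => le_iInf₂ fun i hi => ?_
  exact add_le_add (iInf₂_le i hi) (iInf₂_le i hi)

/-- superadditivity of the lower limit -/
theorem sum_liminf_le {ι : Type*} (s : Finset ι) (u : ι → ℕ → ℝ≥0∞) :
    ∑ Q ∈ s, liminf (u Q) atTop ≤ liminf (fun K => ∑ Q ∈ s, u Q K) atTop := by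
  classical
  induction s using Finset.induction_on with
  | empty => simp
  | insert a s ha ih =>
    rw [Finset.sum_insert ha]
    have h1 : (fun K => ∑ Q ∈ insert a s, u Q K) = fun K => u a K + ∑ Q ∈ s, u Q K := by
      funext K
      rw [Finset.sum_insert ha]
    rw [h1]
    exact (add_le_add le_rfl ih).trans (add_liminf_le _ _)

theorem bernoulli {x a : ℝ} (w : ℕ) (hx : 0 < x) (hxa : 2 * (w + 1) * a ≤ x) (ha : 0 ≤ a) :
    x ^ (w + 1) ≤ 2 * (x - a) ^ (w + 1) := by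
  have h0 : a / x ≤ 1 := by
    rw [div_le_one hx]
    nlinarith [mul_nonneg (Nat.cast_nonneg (α := ℝ) w) ha]
  have h1 := one_add_mul_le_pow (a := -(a / x)) (by linarith) (w + 1)
  have h2 : (w + 1 : ℝ) * (a / x) ≤ 1 / 2 := by
    rw [← mul_div_assoc, div_le_div_iff₀ hx (by norm_num)]
    linarith
  have h3 : (x - a) ^ (w + 1) = x ^ (w + 1) * (1 + -(a / x)) ^ (w + 1) := by
    rw [← mul_pow]
    congr 1
    field_simp
    ring
  have h4 : (1 : ℝ) / 2 ≤ (1 + -(a / x)) ^ (w + 1) := by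
    refine le_trans ?_ h1
    push_cast
    linarith
  rw [h3]
  have h5 : 0 < x ^ (w + 1) := by positivity
  nlinarith

/-- telescoping -/
theorem tele {hP hJ : ℕ → ℕ} {M : ℕ} (hM : ∀ K, hJ (K + M) + hP K ≤ hP (K + M)) (K0 T : ℕ)
    (hT : T * M ≤ K0) (hT0 : 0 < T) : ∃ j < T, T * hJ (K0 - j * M) ≤ hP K0 := by
  by_contra hcon
  push Not at hcon
  have h1 : ∀ t ≤ T, ∑ j ∈ Finset.range t, hJ (K0 - j * M) + hP (K0 - t * M) ≤ hP K0 := by
    intro t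
    induction t with
    | zero => simp
    | succ t ih =>
      intro ht
      have h2 := ih (by omega)
      have h3 : (t + 1) * M ≤ K0 := (Nat.mul_le_mul_right M ht).trans hT
      have h4 : K0 - t * M = (K0 - (t + 1) * M) + M := by
        rw [add_mul, one_mul] at h3 ⊢
        omega
      rw [Finset.sum_range_succ]
      have h5 := hM (K0 - (t + 1) * M)
      rw [← h4] at h5
      omega
  have h2 := h1 T le_rfl
  have h3 : ∑ j ∈ Finset.range T, hP K0 < ∑ j ∈ Finset.range T, T * hJ (K0 - j * M) :=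
    Finset.sum_lt_sum_of_nonempty ⟨0, Finset.mem_range.2 hT0⟩
      fun j hj => hcon j (Finset.mem_range.1 hj)
  rw [Finset.sum_const, Finset.card_range, ← Finset.mul_sum, smul_eq_mul] at h3
  have h4 := Nat.lt_of_mul_lt_mul_left h3
  omega

/-- the counting argument -/
theorem core {hP hJ g : ℕ → ℕ} {M w c : ℕ} {D : ℝ} (hM1 : 1 ≤ M) (hD : 0 ≤ D)
    (hM : ∀ K, hJ (K + M) + hP K ≤ hP (K + M)) (hg : ∀ K, g K ≤ hJ (K + c))
    (hf : ∃ᶠ K : ℕ in atTop, (hP K : ℝ) < D * (K : ℝ) ^ (w + 1)) :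
    ∃ᶠ K : ℕ in atTop, (g K : ℝ) ≤ 2 ^ (w + 2) * M * D * (K : ℝ) ^ w := by
  rw [frequently_atTop] at hf ⊢
  intro N
  set a : ℕ := 2 * M + 2 * c with ha
  obtain ⟨K0, hK0, hlt⟩ := hf (2 * (w + 1) * a + 2 * N + 2 * M + 2 * c + 1)
  have h1 : 2 * (w + 1) * a ≤ K0 := by omega
  have h2 : 2 * N + 2 * M + 2 * c + 1 ≤ K0 := by omega
  set T : ℕ := K0 / (2 * M) with hT
  have hM2 : 0 < 2 * M := by omega
  have hT1 : 2 * M * T ≤ K0 := Nat.mul_div_le K0 (2 * M)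
  have hT2 : K0 < 2 * M * (T + 1) := Nat.lt_mul_div_succ K0 hM2
  have hT0 : 0 < T := Nat.div_pos (by omega) hM2
  have hTM : T * M ≤ K0 := by nlinarith
  obtain ⟨j, hj, hjT⟩ := tele hM K0 T hTM hT0
  have hjM : 2 * (j * M) ≤ K0 := by nlinarith
  refine ⟨K0 - j * M - c, by omega, ?_⟩
  set K : ℕ := K0 - j * M - c with hK
  have hKc : K + c = K0 - j * M := by omega
  have h3 : g K ≤ hJ (K0 - j * M) := by
    rw [← hKc]
    exact hg K
  have h4 : T * g K ≤ hP K0 := (Nat.mul_le_mul_left T h3).trans hjT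
  have h5 : K0 ≤ 2 * K + 2 * c := by omega
  -- real numbers
  have r4 : (T : ℝ) * g K ≤ hP K0 := by exact_mod_cast h4
  have r5 : (K0 : ℝ) - 2 * c ≤ 2 * K := by
    have : (K0 : ℝ) ≤ 2 * K + 2 * c := by exact_mod_cast h5
    linarith
  have r6 : (K0 : ℝ) - 2 * M ≤ 2 * M * T := by
    have : (K0 : ℝ) < 2 * M * (T + 1) := by exact_mod_cast hT2
    linarith
  have ra : (a : ℝ) = 2 * M + 2 * c := by rw [ha]; push_cast; ring
  have hx : (0 : ℝ) < K0 := by exact_mod_cast (by omega : 0 < K0)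
  have rb : 2 * ((w : ℝ) + 1) * a ≤ K0 := by exact_mod_cast h1
  have r7 := bernoulli (x := K0) (a := a) w hx rb (Nat.cast_nonneg a)
  have hxa : (0 : ℝ) ≤ K0 - a := by
    have : (a : ℝ) ≤ 2 * ((w : ℝ) + 1) * a := by
      nlinarith [mul_nonneg (Nat.cast_nonneg (α := ℝ) w) (Nat.cast_nonneg (α := ℝ) a),
        Nat.cast_nonneg (α := ℝ) a]
    linarith
  have hM0 : (0 : ℝ) ≤ M := Nat.cast_nonneg M
  have hc0 : (0 : ℝ) ≤ c := Nat.cast_nonneg c
  have r8 : ((K0 : ℝ) - a) ^ (w + 1) ≤ (2 * M * T) * (2 * K) ^ w := by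
    rw [pow_succ, mul_comm]
    apply mul_le_mul
    · linarith
    · exact pow_le_pow_left₀ hxa (by linarith) w
    · positivity
    · positivity
  have r9 : (K0 : ℝ) ^ (w + 1) ≤ T * (2 ^ (w + 2) * M * (K : ℝ) ^ w) := by
    refine (r7.trans (mul_le_mul_of_nonneg_left r8 (by norm_num))).trans (le_of_eq ?_)
    rw [mul_pow]
    ring
  have hTr : (0 : ℝ) < T := by exact_mod_cast hT0
  have r10 : (T : ℝ) * g K ≤ T * (2 ^ (w + 2) * M * D * (K : ℝ) ^ w) := by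
    refine (r4.trans hlt.le).trans ((mul_le_mul_of_nonneg_left r9 hD).trans (le_of_eq ?_))
    ring
  exact le_of_mul_le_mul_left r10 hTr

/-- Bezout inequality -/
theorem bez (hmul : S_MUL) (hsum : S_SUM) : S_BEZ := by
  intro n w M P f s hP hf hfM hM hs hanti
  set J := P ⊔ Ideal.span {f} with hJ
  have hJQ : ∀ Q ∈ s, Q.IsPrime ∧ J ≤ Q := by
    intro Q hQ
    obtain ⟨h1, h2, h3⟩ := hs Q hQ
    refine ⟨h1, sup_le h2 ?_⟩
    rw [Ideal.span_le]
    simpa using h3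
  obtain ⟨c, hc⟩ := hsum n J s hJQ hanti
  have hmulK := hmul n M P f hP hf hfM
  have hc0 : (2 ^ (w + 2) * (M : ℝ≥0∞)) ≠ 0 := by
    have : (M : ℝ≥0∞) ≠ 0 := by
      have : M ≠ 0 := by omega
      exact_mod_cast this
    positivity
  have hct : (2 ^ (w + 2) * (M : ℝ≥0∞)) ≠ ⊤ :=
    ENNReal.mul_ne_top (ENNReal.pow_ne_top (by norm_num)) (ENNReal.natCast_ne_top M)
  rw [← ENNReal.div_le_iff' hc0 hct]
  apply le_of_forall_gt_imp_ge_of_dense
  intro D hD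
  by_cases hDt : D = ⊤
  · rw [hDt]
    exact le_top
  lift D to ℝ≥0 using hDt
  rw [ENNReal.div_le_iff' hc0 hct]
  have hfr : ∃ᶠ K : ℕ in atTop, (hil P K : ℝ) < (D : ℝ) * (K : ℝ) ^ (w + 1) := by
    have h1 : ∃ᶠ K : ℕ in atTop, (hil P K : ℝ≥0∞) / (K : ℝ≥0∞) ^ (w + 1) < D :=
      frequently_lt_of_liminf_lt (by isBoundedDefault) hD
    refine (h1.and_eventually (eventually_gt_atTop 0)).mono ?_
    rintro K ⟨h2, h3⟩
    have hK0 : (K : ℝ≥0∞) ^ (w + 1) ≠ 0 := by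
      have : (K : ℝ≥0∞) ≠ 0 := by exact_mod_cast h3.ne'
      positivity
    have hKt : (K : ℝ≥0∞) ^ (w + 1) ≠ ⊤ := ENNReal.pow_ne_top (ENNReal.natCast_ne_top K)
    rw [ENNReal.div_lt_iff (Or.inl hK0) (Or.inl hKt)] at h2
    have h4 : ((hil P K : ℝ≥0) : ℝ≥0∞) < ((D * (K : ℝ≥0) ^ (w + 1) : ℝ≥0) : ℝ≥0∞) := by
      push_cast
      exact h2
    have h5 := ENNReal.coe_lt_coe.1 h4
    exact_mod_cast h5
  have hfin := core (w := w) hM D.2 hmulK hc hfr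
  refine (sum_liminf_le s fun Q K => (hil Q K : ℝ≥0∞) / (K : ℝ≥0∞) ^ w).trans ?_
  apply liminf_le_of_frequently_le'
  refine (hfin.and_eventually (eventually_gt_atTop 0)).mono ?_
  rintro K ⟨h2, h3⟩
  have hK0 : (K : ℝ≥0∞) ^ w ≠ 0 := by
    have : (K : ℝ≥0∞) ≠ 0 := by exact_mod_cast h3.ne'
    positivity
  have hKt : (K : ℝ≥0∞) ^ w ≠ ⊤ := ENNReal.pow_ne_top (ENNReal.natCast_ne_top K)
  have h4 : ∑ Q ∈ s, (hil Q K : ℝ≥0∞) / (K : ℝ≥0∞) ^ w =
      ((∑ Q ∈ s, hil Q K : ℕ) : ℝ≥0∞) / (K : ℝ≥0∞) ^ w := by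
    push_cast
    simp_rw [div_eq_mul_inv]
    rw [Finset.sum_mul]
  show ∑ Q ∈ s, (hil Q K : ℝ≥0∞) / (K : ℝ≥0∞) ^ w ≤ _
  rw [h4, ENNReal.div_le_iff hK0 hKt]
  have h5 : ((∑ Q ∈ s, hil Q K : ℕ) : ℝ≥0) ≤ 2 ^ (w + 2) * M * D * (K : ℝ≥0) ^ w := by
    exact_mod_cast h2
  have h6 := ENNReal.coe_le_coe.2 h5
  push_cast at h6 ⊢
  exact h6

end Pool.Agent.W125.DZ
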